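import Pool.Agent.R811.Cross.Open

/-!
# The normalised brackets of the knotoid diagrams with a given shadow

Diagrams (starting library `Pool.Agent.H891R2.Jones.Diagram`): `Diagram P` (oriented diagrams with marked
points `P`), `Diagram.fPoly` (the normalised bracket `(-A^{-3})^{w(D)} ⟨D⟩`, a Laurent polynomial in `A = T 1`;
the number `Diagram.loops` of components of a state counts circles and intervals).  `IsKnotoid D` (starting library
`Pool.Agent.H832R3.TW.E`): the pieces of `D` form one oriented interval, running from a marked point `tail` to a
different marked point `head`, and (possibly) oriented closed curves; `IsKnot D` (starting library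
`Pool.Agent.TH561.PK.Defs`): all marked points are on one curve.

`Pool.Agent.R811.Cross.Defs`, `Pool.Agent.R811.Cross.Open`:

* `Shadow n`: the shadow of a knotoid diagram with `n` crossings (an open Gauss code): the `2 n + 1` edges of the
  oriented interval are numbered `0, …, 2 n` in the order in which one runs through them from the tail to the head; the
  double point `i` is passed between the edges `p i` and `p i + 1` and between the edges `q i` and `q i + 1`; every
  edge but the last one is one of the edges `p i`, `q i`; `left i` says whether the second strand crosses the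
  first one from the right to the left or from the left to the right.  Every knotoid diagram in the sphere
  has a shadow of this form (planarity is not needed in the theorem);
* `G.knotoid s`: the knotoid diagram with the shadow `G` in which the crossing `i` is positive for `s i = true` and
  negative for `s i = false`.  So the `2 ^ n` diagrams `G.knotoid s` are the diagrams which are obtained from one of
  them by changing some of the crossings;
* `G.Interlaced i j`: running from the tail to the head one meets `j` exactly once between the two passages
  through `i`.  In a knotoid diagram in the sphere a double point which is not interlaced with any other one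
  is the vertex of a loop which can be removed together with everything which is inside it.

`Pool.Agent.R811.Cross.Bigon`: `G.Antiparallel i j`: there is an edge from `i` to `j`, and on the two other strands at
`i` and `j` an edge from `j` to `i`; here the first and the last edge (the ends of the interval) count as one edge
which leads from the last to the first passage.

Proof.  The pieces of every state of a knotoid diagram form one interval and circles, so that the bracket is not
changed if the last and the first edge are glued to each other.  Then one uses the theorem on the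
(virtual) diagrams with a given shadow, `Pool.Agent.Results.MP_42db45_gt.AllShadows`.
-/

set_option autoImplicit false

namespace Pool.Agent.Results.MP_79b4ff_gt.AllKnotoidShadows

open Finset LaurentPolynomial Pool.Agent.H891R2.Jones Pool.Agent.R811.Cross
open Pool.Agent.H832R3.TW (IsKnotoid)

open Classical in
/-- Let `G` be the shadow of a knotoid diagram with `n > 0` crossings.  The `2 ^ n` diagrams `G.knotoid s` with
this shadow are diagrams of knotoids, and for every Laurent polynomial `g`, for instance for `g = 1`:

* If two double points of `G` are interlaced, then at most three quarters of the `2 ^ n` diagrams have an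
  `f`-polynomial congruent to `g` modulo `2`.  So at least one quarter of the diagrams have `f ≠ 1`.
* If there are `ν` pairwise disjoint pairs of interlaced double points, then the proportion of the diagrams whose
  `f`-polynomial is equal to `g`, or only agrees with `g` up to terms of order `3` at `A = 1`, is at most
  `(162 / ν) ^ (1/4)`.
* If every double point is interlaced with another one and no two double points `i ≠ j` are the vertices of
  an antiparallel bigon, then this proportion is at most `(1620 / n) ^ (1/4)`. -/
theorem result (n : ℕ) (hn : 0 < n) (G : Shadow n) :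
    (∀ s, IsKnotoid (G.knotoid s) ∧ Pool.Agent.TH561.PK.IsKnot (G.knotoid s)) ∧
    ∀ g : ℤ[T;T⁻¹],
      ((∃ i j, G.Interlaced i j) →
        4 * #{s : Fin n → Bool | (2 : ℤ[T;T⁻¹]) ∣ (G.knotoid s).fPoly - g} ≤ 3 * 2 ^ n ∧
        2 ^ n ≤ 4 * #{s : Fin n → Bool | (G.knotoid s).fPoly ≠ g}) ∧
      (∀ (ν : ℕ) (u w : Fin ν → Fin n), Function.Injective (Sum.elim u w) →
        (∀ k, G.Interlaced (u k) (w k)) →
        ν * #{s : Fin n → Bool | (T 1 - 1 : ℤ[T;T⁻¹]) ^ 3 ∣ (G.knotoid s).fPoly - g} ^ 4 ≤ 162 * 16 ^ n ∧
        ν * #{s : Fin n → Bool | (G.knotoid s).fPoly = g} ^ 4 ≤ 162 * 16 ^ n) ∧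
      ((∀ i, ∃ j, G.Interlaced i j) → (∀ i j, i ≠ j → ¬ G.Antiparallel i j) →
        n * #{s : Fin n → Bool | (T 1 - 1 : ℤ[T;T⁻¹]) ^ 3 ∣ (G.knotoid s).fPoly - g} ^ 4 ≤ 1620 * 16 ^ n ∧
        n * #{s : Fin n → Bool | (G.knotoid s).fPoly = g} ^ 4 ≤ 1620 * 16 ^ n) := by
  refine ⟨fun s => ⟨by convert isKnotoid G hn s, knotoid_one G s⟩, fun g => ⟨?_, ?_, ?_⟩⟩
  · rintro ⟨i, j, hij⟩
    have h := quarter G hij g
    simp only [fPoly_knotoid]
    refine ⟨h, ?_⟩
    have h1 : #{s : Fin n → Bool | (G.diagram s).fPoly = g} ≤
        #{s : Fin n → Bool | (2 : ℤ[T;T⁻¹]) ∣ (G.diagram s).fPoly - g} := by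
      apply Finset.card_le_card
      intro s hs
      rw [Finset.mem_filter] at hs ⊢
      exact ⟨hs.1, by rw [hs.2, sub_self]; exact dvd_zero _⟩
    have h2 : #{s : Fin n → Bool | (G.diagram s).fPoly = g} +
        #{s : Fin n → Bool | (G.diagram s).fPoly ≠ g} = 2 ^ n := by
      rw [Finset.card_filter_add_card_filter_not]
      simp
    omega
  · intro ν u w h1 h2
    have h := anti G u w h1 h2 g
    simp only [fPoly_knotoid]
    refine ⟨h, ?_⟩
    refine (Nat.mul_le_mul_left ν (Nat.pow_le_pow_left (Finset.card_le_card ?_) 4)).trans h
    intro s hs
    rw [Finset.mem_filter] at hs ⊢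
    exact ⟨hs.1, by rw [hs.2, sub_self]; exact dvd_zero _⟩
  · intro h1 h2
    obtain ⟨ν, u, w, h3, h4, h5⟩ := matching G h1 h2
    have h := anti G u w h3 h4 g
    simp only [fPoly_knotoid]
    have key : n * #{s : Fin n → Bool | (T 1 - 1 : ℤ[T;T⁻¹]) ^ 3 ∣ (G.diagram s).fPoly - g} ^ 4 ≤
        1620 * 16 ^ n := by
      calc n * #{s : Fin n → Bool | (T 1 - 1 : ℤ[T;T⁻¹]) ^ 3 ∣ (G.diagram s).fPoly - g} ^ 4
          ≤ (10 * ν) * #{s : Fin n → Bool | (T 1 - 1 : ℤ[T;T⁻¹]) ^ 3 ∣ (G.diagram s).fPoly - g} ^ 4 :=
            Nat.mul_le_mul_right _ h5
        _ = 10 * (ν * #{s : Fin n → Bool | (T 1 - 1 : ℤ[T;T⁻¹]) ^ 3 ∣ (G.diagram s).fPoly - g} ^ 4) := by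
            ring
        _ ≤ 10 * (162 * 16 ^ n) := Nat.mul_le_mul_left _ h
        _ = 1620 * 16 ^ n := by ring
    refine ⟨key, ?_⟩
    refine (Nat.mul_le_mul_left n (Nat.pow_le_pow_left (Finset.card_le_card ?_) 4)).trans key
    intro s hs
    rw [Finset.mem_filter] at hs ⊢
    exact ⟨hs.1, by rw [hs.2, sub_self]; exact dvd_zero _⟩

end Pool.Agent.Results.MP_79b4ff_gt.AllKnotoidShadows
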