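import Pool.Agent.R811.Abc.Small
import Pool.Agent.H832R3.TW.E

/-!
# Knotoids with many tangles of bounded size: finiteness, by the abc theorem for polynomials

Definitions (`Pool.Agent.R811.Abc.Defs`, `Pool.Agent.R811.Abc.Final`, `Pool.Agent.R811.Abc.Bdd`,
`Pool.Agent.R811.Abc.Small`; starting library `Pool.Agent.H891R2.RF.Defs`, `Pool.Agent.H891R2.MT.Defs`,
`Pool.Agent.H891R2.Jones.Diagram`, `Pool.Agent.H832R3.TW.E`):

* `Outer4`: marked points, arcs, crossings and four corners (`corner t r`, `t` top, `r` right). It is used
  for tangles with four ends and for the part of a diagram outside of a box; `size`: the number of
  crossings plus the number of marked points;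
* `IsTangle T`: in every state of `T` two different curves join the four corners in pairs, both
  horizontally or both vertically, never diagonally (every tangle diagram drawn in a rectangle has this
  property);
* `ring W l`: the diagram obtained from the outside `W` by filling its box with the tangles of the list
  `l`, side by side;
* `Orients D U`: the oriented diagram `D` is `U` with some directions; `IsKnotoid D`: the pieces of `D`
  form one oriented interval, running from a marked point `tail` to a different marked point `head`,
  and (possibly) oriented closed curves;
* `D.fPoly`: the normalised bracket (the number `Diagram.loops` of components of a state counts circles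
  and intervals); `IsU f`: `f = ± A^m`, for instance `f = 1`;
* `JonesRow q T`: `T` behaves like a row of `q` crossings: up to one unit `± A^m` the bracket of every
  diagram which contains `T` is not changed if `T` is replaced by `|q|` crossings in a row, of the kind
  given by the sign of `q`; `IsRow T`: there is such a `q`; `JonesCut T`: the same with two vertical
  strands in place of a row;
* `brH W`, `brV W`: the brackets of `W` with two horizontal / vertical strands in the box,
  `dd = -A² - A⁻²`;
* `Exc W l`, the exceptional cases: `W` behaves like a vertical cut (`brV W = dd * brH W`, and `brH W` is
  a unit) and the brackets of the vertical closures of all tangles of `l` are units; or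
  `brV W` is a unit, one tangle of `l` behaves like two vertical strands and the brackets of the vertical
  closures of all others are units.
-/

set_option autoImplicit false

namespace Pool.Agent.Results.MP_79b4ff_gt.KnotoidBoundedTangles

open Pool.Agent.H891R2.Jones Pool.Agent.H891R2.MT Pool.Agent.H891R2.RF Pool.Agent.R811.Abc
open Pool.Agent.H832R3.TW (IsKnotoid)

open Classical in
/-- For every `s` there is a number `N` such that the following holds. Let `W` be the part of a knotoid
diagram outside a box which the diagram meets in four points (`W` contains the tail and the head), of size
at most `s`, and fill the box with arbitrarily many tangles `T₁, …, Tₙ`, side by side, each of which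
behaves like a row of crossings or has size at most `s`. If the resulting knotoid has the normalised
bracket `1` (or `± A^m`), then at most `N` of the tangles do not behave like rows, and the total number
`∑ q i` of the crossings of the rows has absolute value at most `N`; or one of the exceptional cases
`Exc W l` holds. -/
theorem result (s : ℕ) : ∃ N : ℕ,
    ∀ (W : Outer4) (l : List Outer4), size W ≤ s →
      (∀ T ∈ l, IsTangle T) → (∀ T ∈ l, IsRow T ∨ size T ≤ s) →
      ∀ D : Diagram (puts W l).P, Orients D (ring W l) → IsKnotoid D → IsU D.fPoly →
        (l.countP (fun T => ¬ IsRow T) ≤ N ∧
          ∀ q : Outer4 → ℤ, (∀ T ∈ l, JonesRow (q T) T ∨ (¬ IsRow T ∧ q T = 0)) →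
            |(l.map q).sum| ≤ N) ∨ Exc W l := by
  obtain ⟨N, hN⟩ := small s
  refine ⟨N, ?_⟩
  intro W l hW hT hl D hD _ hf
  have : Nonempty (puts W l).P := ⟨(puts W l).corner false false⟩
  exact hN W l hW hT hl (IsU.bracket D _ hD hf)

end Pool.Agent.Results.MP_79b4ff_gt.KnotoidBoundedTangles
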