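import Pool.Agent.R811.Abc.General
import Pool.Agent.H832R3.TW.E

/-!
# Knotoids with repeated tangles: the abc theorem for polynomials and the bracket

Definitions (`Pool.Agent.R811.Abc.Defs`, `Pool.Agent.R811.Abc.Final`; starting library
`Pool.Agent.H891R2.RF.Defs`, `Pool.Agent.H891R2.MT.Defs`, `Pool.Agent.H891R2.Jones.Diagram`,
`Pool.Agent.H832R3.TW.E`):

* `Outer4`: marked points, arcs, crossings and four corners (`corner t r`, `t` top, `r` right). It is used
  for tangles with four ends and for the part of a diagram outside of a box;
* `IsTangle T`: in every state of `T` two different curves join the four corners in pairs, both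
  horizontally or both vertically, never diagonally (every tangle diagram drawn in a rectangle has this
  property);
* `ring W l`: the diagram obtained from the outside `W` by filling its box with the tangles of the list
  `l`, side by side;
* `Orients D U`: the oriented diagram `D` is `U` with some directions; `IsKnotoid D`: the pieces of `D`
  form one oriented interval, running from a marked point `tail` to a different marked point `head`,
  and (possibly) oriented closed curves;
* `D.fPoly`: the normalised bracket (the number `Diagram.loops` of components of a state counts circles
  and intervals); `IsU f`: `f = ± A^m`, for instance `f = 1`;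
* `JonesRow q T`: `T` behaves like a row of `q` crossings: up to one unit `± A^m` the bracket of every
  diagram which contains `T` is not changed if `T` is replaced by `|q|` crossings in a row, of the kind
  given by the sign of `q`;
* `brH W`, `brV W`: the brackets of `W` with two horizontal / vertical strands in the box,
  `dd = -A² - A⁻²`.
-/

set_option autoImplicit false

namespace Pool.Agent.Results.MP_79b4ff_gt.KnotoidRepeatedTangles

open Pool.Agent.H891R2.Jones Pool.Agent.H891R2.MT Pool.Agent.H891R2.RF Pool.Agent.R811.Abc
open Pool.Agent.H832R3.TW (IsKnotoid)

/-- Let `W` be the part of a knotoid diagram outside a box which the diagram meets in four points, with `C`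
crossings and `p` marked points (`W` contains the tail and the head), and fill the box with tangles
`T_{c 1}, …, T_{c n}`, side by side, where `T 0, …, T (r-1)` are arbitrary tangles, each of which occurs at
least `2 C + 4 p + 5` times. If the resulting knotoid has the normalised bracket `1` (or `± A^m`), then
every `T i` behaves like a row of `q i` crossings; or `W` behaves like a vertical cut: then
`⟨W with vertical strands⟩ = d ⟨W with horizontal strands⟩`, the latter is a unit, and the closures
of all `T i` by vertical strands have trivial Jones polynomials up to a unit. -/
theorem result (r : ℕ) (T : Fin r → Outer4) (hT : ∀ i, IsTangle (T i)) (c : List (Fin r))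
    (W : Outer4) (hc : ∀ i, 2 * W.crossings.length + 4 * Fintype.card W.P + 5 ≤ c.count i)
    (D : Diagram (puts W (c.map T)).P) (hD : Orients D (ring W (c.map T))) (_hK : IsKnotoid D)
    (hf : IsU D.fPoly) :
    (∃ q : Fin r → ℤ, ∀ i, JonesRow (q i) (T i)) ∨
      (brV W = dd * brH W ∧ IsU (brH W) ∧ ∀ i, IsU (brV (T i))) := by
  have : Nonempty (puts W (c.map T)).P := ⟨(puts W (c.map T)).corner false false⟩
  exact general_case T hT W c hc (IsU.bracket D _ hD hf)

end Pool.Agent.Results.MP_79b4ff_gt.KnotoidRepeatedTangles
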